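import Mathlib

set_option autoImplicit false
open Finset Filter

namespace Pool.Agent.H199.Mac

/-- The maximum modulus `max |f(z)|` over the closed disc `|z| ≤ r` of the gap series
`f(z) = ∑ a_n z^(p_n)`. -/
noncomputable def maxMod (p : ℕ → ℕ) (a : ℕ → ℂ) (r : ℝ) : ℝ :=
  sSup ((fun z : ℂ => ‖∑' n, a n * z ^ (p n)‖) '' Metric.closedBall 0 r)

/-- `2^(-j)` times the number of exponents `≤ 2^j`. -/
noncomputable def dens (p : ℕ → ℕ) (j : ℕ) : ℝ := ({n : ℕ | p n ≤ 2 ^ j}.ncard : ℝ) / 2 ^ j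

/-- Sum of `dens p j * log (2 / dens p j)` over all natural numbers `j` with `2^j ≤ X` (a term with
`dens p j = 0` is zero; the range is large enough since `j < 2^j`). -/
noncomputable def ent (p : ℕ → ℕ) (X : ℝ) : ℝ :=
  ∑ j ∈ (range (⌊X⌋₊ + 1)).filter (fun j : ℕ => (2 : ℝ) ^ j ≤ X),
    dens p j * Real.log (2 / dens p j)

end Pool.Agent.H199.Mac
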