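import Mathlib
import Pool.Graph.R_seed8.Helper107.MZmac2
import Pool.Agent.H199.Mac.Defs

set_option autoImplicit false
open Finset Filter

namespace Pool.Agent.H199.Mac
open Pool.Agent.Helper107.MZ

theorem summ_norm (p : ℕ → ℕ) (a : ℕ → ℂ)
    (ha : ∀ z : ℂ, Summable (fun n => a n * z ^ (p n))) (r : ℝ) (hr : 0 ≤ r) :
    Summable (fun n => ‖a n‖ * r ^ (p n)) := by
  refine ((ha (r : ℂ)).norm).congr fun n => ?_
  rw [norm_mul, norm_pow, Complex.norm_real, Real.norm_eq_abs, abs_of_nonneg hr]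

theorem maxMod_bdd (p : ℕ → ℕ) (a : ℕ → ℂ)
    (ha : ∀ z : ℂ, Summable (fun n => a n * z ^ (p n))) (r : ℝ) :
    BddAbove ((fun z : ℂ => ‖∑' n, a n * z ^ (p n)‖) '' Metric.closedBall 0 r) := by
  refine ⟨∑' n, ‖a n‖ * (max r 0) ^ (p n), ?_⟩
  rintro _ ⟨w, hw, rfl⟩
  rw [mem_closedBall_zero_iff] at hw
  refine tsum_of_norm_bounded (summ_norm p a ha (max r 0) (le_max_right _ _)).hasSum fun n => ?_
  rw [norm_mul, norm_pow]
  refine mul_le_mul_of_nonneg_left ?_ (norm_nonneg _)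
  exact pow_le_pow_left₀ (norm_nonneg _) (hw.trans (le_max_left _ _)) _

theorem norm_le_maxMod (p : ℕ → ℕ) (a : ℕ → ℂ)
    (ha : ∀ z : ℂ, Summable (fun n => a n * z ^ (p n))) (r : ℝ) (z : ℂ) (hz : ‖z‖ ≤ r) :
    ‖∑' n, a n * z ^ (p n)‖ ≤ maxMod p a r :=
  le_csSup (maxMod_bdd p a ha r) ⟨z, by simpa using hz, rfl⟩

theorem maxMod_mono (p : ℕ → ℕ) (a : ℕ → ℂ)
    (ha : ∀ z : ℂ, Summable (fun n => a n * z ^ (p n))) (r s : ℝ) (hr : 0 ≤ r) (hrs : r ≤ s) :
    maxMod p a r ≤ maxMod p a s := by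
  refine csSup_le_csSup (maxMod_bdd p a ha s) ?_ ?_
  · exact (Metric.nonempty_closedBall.mpr hr).image _
  · exact Set.image_mono (Metric.closedBall_subset_closedBall hrs)

theorem int_exp (k : ℤ) : ∫ θ in (0 : ℝ)..(2 * Real.pi), Complex.exp ((k : ℂ) * θ * Complex.I) =
    if k = 0 then 2 * (Real.pi : ℂ) else 0 := by
  split_ifs with h
  · subst h
    simp
  · have hk : (k : ℂ) * Complex.I ≠ 0 := by
      refine mul_ne_zero ?_ Complex.I_ne_zero
      exact_mod_cast h
    have h1 : ∀ θ : ℝ, Complex.exp ((k : ℂ) * θ * Complex.I) =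
        Complex.exp ((k : ℂ) * Complex.I * θ) := by
      intro θ; congr 1; ring
    simp_rw [h1]
    rw [integral_exp_mul_complex hk]
    have h2 : (k : ℂ) * Complex.I * ((2 * Real.pi : ℝ) : ℂ) = k * (2 * Real.pi * Complex.I) := by
      push_cast; ring
    rw [h2, Complex.exp_int_mul_two_pi_mul_I]
    simp

/-- Cauchy's estimate for gap series. -/
theorem cauchy_est (p : ℕ → ℕ) (hp : StrictMono p) (a : ℕ → ℂ)
    (ha : ∀ z : ℂ, Summable (fun n => a n * z ^ (p n))) (r : ℝ) (hr : 0 ≤ r) (m : ℕ) :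
    ‖a m‖ * r ^ (p m) ≤ maxMod p a r := by
  have hpi := Real.pi_pos
  set F : ℕ → ℝ → ℂ := fun n θ => (a n * (r : ℂ) ^ (p n)) *
    Complex.exp (((p n : ℤ) - (p m : ℤ) : ℤ) * θ * Complex.I) with hF
  have hFn : ∀ n θ, ‖F n θ‖ = ‖a n‖ * r ^ (p n) := by
    intro n θ
    simp only [hF]
    rw [norm_mul, norm_mul, norm_pow, Complex.norm_real, Real.norm_eq_abs, abs_of_nonneg hr]
    have : ((((p n : ℤ) - (p m : ℤ) : ℤ) : ℂ) * θ * Complex.I) =
        ((((p n : ℤ) - (p m : ℤ) : ℤ) : ℝ) * θ : ℝ) * Complex.I := by push_cast; ring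
    rw [this, Complex.norm_exp_ofReal_mul_I, mul_one]
  have hS := summ_norm p a ha r hr
  have hlim : ∀ θ : ℝ, HasSum (fun n => F n θ)
      ((∑' n, a n * ((r : ℂ) * Complex.exp (θ * Complex.I)) ^ (p n)) *
        Complex.exp (-(p m : ℂ) * θ * Complex.I)) := by
    intro θ
    refine ((ha ((r : ℂ) * Complex.exp (θ * Complex.I))).hasSum.mul_right
      (Complex.exp (-(p m : ℂ) * θ * Complex.I))).congr_fun ?_ |> fun h => h
    intro n
    simp only [hF]
    have e : Complex.exp ((((p n : ℤ) - (p m : ℤ) : ℤ) : ℂ) * θ * Complex.I) =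
        Complex.exp ((p n : ℂ) * (θ * Complex.I)) * Complex.exp (-(p m : ℂ) * θ * Complex.I) := by
      rw [← Complex.exp_add]
      congr 1
      push_cast
      ring
    rw [mul_pow, ← Complex.exp_nat_mul, e]
    ring
  have hsum := intervalIntegral.hasSum_integral_of_dominated_convergence
    (a := 0) (b := 2 * Real.pi) (μ := MeasureTheory.volume) (F := F)
    (f := fun θ : ℝ => (∑' n, a n * ((r : ℂ) * Complex.exp (θ * Complex.I)) ^ (p n)) *
        Complex.exp (-(p m : ℂ) * θ * Complex.I))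
    (fun n _ => ‖a n‖ * r ^ (p n))
    (by
      intro n
      have : Continuous (F n) := by
        simp only [hF]
        fun_prop
      exact this.aestronglyMeasurable)
    (by
      intro n
      exact Eventually.of_forall fun θ _ => (hFn n θ).le)
    (Eventually.of_forall fun θ _ => hS)
    (by simp)
    (Eventually.of_forall fun θ _ => hlim θ)
  have hint : ∀ n, ∫ θ in (0 : ℝ)..(2 * Real.pi), F n θ =
      if n = m then (a m * (r : ℂ) ^ (p m)) * (2 * (Real.pi : ℂ)) else 0 := by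
    intro n
    simp only [hF]
    rw [intervalIntegral.integral_const_mul, int_exp]
    by_cases h : n = m
    · subst h; simp
    · have : ((p n : ℤ) - (p m : ℤ)) ≠ 0 := by
        intro h'
        apply h
        apply hp.injective
        omega
      rw [if_neg this, if_neg h, mul_zero]
  have h3 : HasSum (fun n => ∫ θ in (0 : ℝ)..(2 * Real.pi), F n θ)
      ((a m * (r : ℂ) ^ (p m)) * (2 * (Real.pi : ℂ))) := by
    simp_rw [hint]
    exact hasSum_ite_eq m _
  have h4 := hsum.unique h3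
  have h5 : ‖∫ θ in (0 : ℝ)..(2 * Real.pi),
      (∑' n, a n * ((r : ℂ) * Complex.exp (θ * Complex.I)) ^ (p n)) *
        Complex.exp (-(p m : ℂ) * θ * Complex.I)‖ ≤ maxMod p a r * |2 * Real.pi - 0| := by
    refine intervalIntegral.norm_integral_le_of_norm_le_const fun θ _ => ?_
    rw [norm_mul]
    have e1 : ‖Complex.exp (-(p m : ℂ) * θ * Complex.I)‖ = 1 := by
      have : (-(p m : ℂ) * θ * Complex.I) = ((-(p m : ℝ) * θ : ℝ) : ℂ) * Complex.I := by
        push_cast; ring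
      rw [this, Complex.norm_exp_ofReal_mul_I]
    rw [e1, mul_one]
    refine norm_le_maxMod p a ha r ((r : ℂ) * Complex.exp (θ * Complex.I)) ?_
    rw [norm_mul, Complex.norm_exp_ofReal_mul_I, mul_one, Complex.norm_real, Real.norm_eq_abs,
      abs_of_nonneg hr]
  rw [h4, norm_mul, norm_mul, norm_pow, Complex.norm_real, Real.norm_eq_abs, abs_of_nonneg hr,
    sub_zero, abs_of_pos (by positivity)] at h5
  have h6 : ‖(2 * (Real.pi : ℂ))‖ = 2 * Real.pi := by
    rw [norm_mul, Complex.norm_real, Real.norm_eq_abs, abs_of_pos hpi]; norm_num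
  rw [h6] at h5
  exact le_of_mul_le_mul_right h5 (by positivity)

theorem maxMod_tendsto (p : ℕ → ℕ) (hp : StrictMono p) (hp0 : ∀ n, 0 < p n) (a : ℕ → ℂ)
    (ha : ∀ z : ℂ, Summable (fun n => a n * z ^ (p n))) (hne : ∃ n, a n ≠ 0) :
    Tendsto (maxMod p a) atTop atTop := by
  obtain ⟨n, hn⟩ := hne
  have h1 : Tendsto (fun r : ℝ => ‖a n‖ * r ^ (p n)) atTop atTop :=
    (tendsto_pow_atTop (hp0 n).ne').const_mul_atTop (norm_pos_iff.mpr hn)
  refine tendsto_atTop_mono' _ ?_ h1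
  filter_upwards [eventually_ge_atTop 0] with r hr
  exact cauchy_est p hp a ha r hr n

/-- Quantitative truncation. -/
theorem trunc_quant (p : ℕ → ℕ) (hp : StrictMono p) (a : ℕ → ℂ)
    (ha : ∀ z : ℂ, Summable (fun n => a n * z ^ (p n))) (r : ℝ) (hr : 0 < r) (c : ℝ)
    (hM : 0 < maxMod p a r)
    (hc : 1 + Real.logb 2 (maxMod p a r) ≤ c) (z : ℂ) (hz : ‖z‖ ≤ r / 2) (m : ℕ)
    (hm : ∀ n, n < m ↔ (p n : ℝ) < c) :
    ‖∑' n, a n * z ^ (p n) - ∑ n ∈ range m, a n * z ^ (p n)‖ ≤ 1 := by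
  set M := maxMod p a r with hMdef
  have hpm : ∀ n, c + n ≤ (p (n + m) : ℝ) := by
    intro n
    induction n with
    | zero =>
      have : ¬ (m < m) := lt_irrefl m
      rw [hm] at this
      simpa using not_lt.mp this
    | succ k ih =>
      have h1 : p (k + m) < p (k + 1 + m) := hp (by omega)
      have h2 : p (k + m) + 1 ≤ p (k + 1 + m) := h1
      have h3 : (p (k + m) : ℝ) + 1 ≤ (p (k + 1 + m) : ℝ) := by exact_mod_cast h2
      push_cast
      linarith
  have hterm : ∀ n, ‖a (n + m) * z ^ (p (n + m))‖ ≤ (1 / 2) * (1 / 2 : ℝ) ^ n := by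
    intro n
    have h1 := cauchy_est p hp a ha r hr.le (n + m)
    rw [norm_mul, norm_pow]
    have h2 : ‖z‖ ^ (p (n + m)) ≤ (r / 2) ^ (p (n + m)) :=
      pow_le_pow_left₀ (norm_nonneg _) hz _
    have h3 : (1 / 2 : ℝ) ^ (p (n + m)) ≤ (1 / 2) * (1 / 2 : ℝ) ^ n / M := by
      have e1 : (1 / 2 : ℝ) ^ (p (n + m)) = (1 / 2 : ℝ) ^ ((p (n + m) : ℕ) : ℝ) :=
        (Real.rpow_natCast _ _).symm
      have e2 : (1 / 2) * (1 / 2 : ℝ) ^ n / M = (1 / 2 : ℝ) ^ ((n : ℝ) + 1 + Real.logb 2 M) := by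
        rw [Real.rpow_add (by norm_num), Real.rpow_add (by norm_num), Real.rpow_natCast,
          Real.rpow_one]
        have : (1 / 2 : ℝ) ^ Real.logb 2 M = M⁻¹ := by
          rw [one_div, Real.inv_rpow (by norm_num), Real.rpow_logb (by norm_num) (by norm_num) hM]
        rw [this]
        ring
      rw [e1, e2]
      apply Real.rpow_le_rpow_of_exponent_ge (by norm_num) (by norm_num)
      have := hpm n
      linarith
    calc ‖a (n + m)‖ * ‖z‖ ^ (p (n + m)) ≤ ‖a (n + m)‖ * (r / 2) ^ (p (n + m)) :=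
          mul_le_mul_of_nonneg_left h2 (norm_nonneg _)
      _ = (‖a (n + m)‖ * r ^ (p (n + m))) * (1 / 2 : ℝ) ^ (p (n + m)) := by
          rw [div_eq_mul_one_div r 2, mul_pow]; ring
      _ ≤ M * ((1 / 2) * (1 / 2 : ℝ) ^ n / M) :=
          mul_le_mul h1 h3 (by positivity) hM.le
      _ = (1 / 2) * (1 / 2 : ℝ) ^ n := by field_simp
  have hsum := (ha z).sum_add_tsum_nat_add m
  rw [← hsum, add_sub_cancel_left]
  have hg : HasSum (fun n : ℕ => (1 / 2) * (1 / 2 : ℝ) ^ n) ((1 / 2) * 2) :=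
    (hasSum_geometric_two).mul_left _
  have := tsum_of_norm_bounded hg hterm
  linarith

/-- From the telescoping property at one suitable level for each path to the vanishing of the
coefficients. -/
theorem mac_core' (p : ℕ → ℕ) (hp : StrictMono p) (hp0 : ∀ n, 0 < p n) (a : ℕ → ℂ)
    (γ : ℝ → ℂ) (L : ℝ → ℂ) (T : ℝ)
    (hL : ∀ t, T ≤ t → Complex.exp (L t) = γ t) (Mb : ℝ)
    (hMb : ∀ t, T ≤ t → ‖∑' n, a n * (γ t) ^ (p n)‖ ≤ Mb)
    (c : ℕ → ℝ) (hc : ∀ n, 2 ^ n ≤ c n ∧ c n ≤ 2 ^ (n + 1)) (n₀ : ℕ)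
    (htel : ∀ X₀ : ℝ, ∃ τ, T ≤ τ ∧ ∃ N, n₀ ≤ N ∧
      (∀ t ∈ Set.Icc T τ, ∀ m : ℕ, (∀ n, n < m ↔ (p n : ℝ) < c N) →
        ‖∑' n, a n * (γ t) ^ (p n) - ∑ n ∈ range m, a n * (γ t) ^ (p n)‖ ≤ 1) ∧
      ∀ (P : Finset ℕ) (b : ℕ → ℂ) (A : ℝ),
      (∀ q ∈ P, q = 0 ∨ q ∈ Set.range p) → (∀ q ∈ P, (q : ℝ) < c N) → 0 ≤ A →
      (∀ t ∈ Set.Icc T τ, ‖∑ q ∈ P, b q * Complex.exp ((q : ℂ) * L t)‖ ≤ A) →
      ∃ τ', T < τ' ∧ τ' ≤ τ ∧ X₀ ≤ (L τ').re ∧ ∀ t ∈ Set.Icc T τ',
          ‖∑ q ∈ P.filter (fun q : ℕ => (q : ℝ) < c n₀), b q * Complex.exp ((q : ℂ) * L t)‖ ≤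
            3 * A) :
    ∀ n, (p n : ℝ) < c n₀ → a n = 0 := by
  classical
  set b : ℕ → ℂ := Function.extend p a (fun _ => 0) with hb
  have hbp : ∀ n, b (p n) = a n := fun n => hp.injective.extend_apply a _ n
  have hMb0 : 0 ≤ Mb := (norm_nonneg _).trans (hMb T le_rfl)
  have hcount : ∀ x : ℝ, ∃ m : ℕ, ∀ n, n < m ↔ (p n : ℝ) < x := by
    intro x
    have hex : ∃ n, ¬ (p n : ℝ) < x := by
      obtain ⟨k, hk⟩ := exists_nat_ge x
      refine ⟨k, ?_⟩
      rw [not_lt]
      have : k ≤ p k := hp.le_apply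
      have : (k : ℝ) ≤ p k := by exact_mod_cast this
      linarith
    refine ⟨Nat.find hex, fun n => ⟨fun h => ?_, fun h => ?_⟩⟩
    · by_contra h'
      exact Nat.find_min hex h h'
    · by_contra h'
      rw [not_lt] at h'
      have h1 := Nat.find_spec hex
      apply h1
      have : p (Nat.find hex) ≤ p n := hp.monotone h'
      have : (p (Nat.find hex) : ℝ) ≤ p n := by exact_mod_cast this
      linarith
  obtain ⟨m₀, hm₀⟩ := hcount (c n₀)
  have hcmono : ∀ N, n₀ ≤ N → c n₀ ≤ c N := by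
    intro N hN
    rcases hN.eq_or_lt with h | h
    · rw [h]
    · calc c n₀ ≤ 2 ^ (n₀ + 1) := (hc n₀).2
        _ ≤ 2 ^ N := pow_le_pow_right₀ (by norm_num) h
        _ ≤ c N := (hc N).1
  have hpoly := mz_poly_bdd ((range m₀).image p)
    (by
      intro q hq
      rw [Finset.mem_image] at hq
      obtain ⟨n, _, rfl⟩ := hq
      exact hp0 n) b (3 * (Mb + 1))
    (by
      intro ρ
      obtain ⟨τ, hTτ, N, hN0, hB, hτ⟩ := htel (Real.log (max ρ 1))
      obtain ⟨m, hm⟩ := hcount (c N)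
      have hsum : ∀ (k : ℕ) (z : ℂ), ∑ q ∈ (range k).image p, b q * z ^ q =
          ∑ n ∈ range k, a n * z ^ (p n) := by
        intro k z
        rw [Finset.sum_image (fun x _ y _ h => hp.injective h)]
        exact Finset.sum_congr rfl fun n _ => by rw [hbp]
      have hexp : ∀ t, T ≤ t → ∀ q : ℕ, Complex.exp ((q : ℂ) * L t) = γ t ^ q := by
        intro t ht q
        rw [Complex.exp_nat_mul, hL t ht]
      obtain ⟨τ', h1, h2, h3, h4⟩ := hτ ((range m).image p) b (Mb + 1)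
        (by
          intro q hq
          rw [Finset.mem_image] at hq
          obtain ⟨n, _, rfl⟩ := hq
          exact Or.inr ⟨n, rfl⟩)
        (by
          intro q hq
          rw [Finset.mem_image] at hq
          obtain ⟨n, hn, rfl⟩ := hq
          exact (hm n).mp (Finset.mem_range.mp hn))
        (by linarith)
        (by
          intro t ht
          have h5 : ∑ q ∈ (range m).image p, b q * Complex.exp ((q : ℂ) * L t) =
              ∑ n ∈ range m, a n * (γ t) ^ (p n) := by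
            rw [← hsum m (γ t)]
            exact Finset.sum_congr rfl fun q _ => by rw [hexp t ht.1]
          rw [h5]
          have h6 := hB t ht m hm
          have h7 := hMb t ht.1
          have h8 : ∑ n ∈ range m, a n * (γ t) ^ (p n) = ∑' n, a n * (γ t) ^ (p n) -
              (∑' n, a n * (γ t) ^ (p n) - ∑ n ∈ range m, a n * (γ t) ^ (p n)) := by ring
          rw [h8]
          refine (norm_sub_le _ _).trans ?_
          linarith)
      refine ⟨γ τ', ?_, ?_⟩
      · rw [← hL τ' h1.le, Complex.norm_exp]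
        calc ρ ≤ max ρ 1 := le_max_left _ _
          _ = Real.exp (Real.log (max ρ 1)) := (Real.exp_log (by positivity)).symm
          _ ≤ _ := Real.exp_le_exp.mpr h3
      · have h5 := h4 τ' ⟨h1.le, le_rfl⟩
        have h6 : ((range m).image p).filter (fun q : ℕ => (q : ℝ) < c n₀) =
            (range m₀).image p := by
          ext q
          simp only [Finset.mem_filter, Finset.mem_image, Finset.mem_range]
          constructor
          · rintro ⟨⟨n, _, rfl⟩, hq⟩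
            exact ⟨n, (hm₀ n).mpr hq, rfl⟩
          · rintro ⟨n, hn, rfl⟩
            have h7 := (hm₀ n).mp hn
            exact ⟨⟨n, (hm n).mpr (lt_of_lt_of_le h7 (hcmono N hN0)), rfl⟩, h7⟩
        rw [h6] at h5
        have h7 : ∑ q ∈ (range m₀).image p, b q * γ τ' ^ q =
            ∑ q ∈ (range m₀).image p, b q * Complex.exp ((q : ℂ) * L τ') :=
          Finset.sum_congr rfl fun q _ => by rw [hexp τ' h1.le]
        rw [h7]
        exact h5)
  intro n hn
  have := hpoly (p n) (Finset.mem_image.mpr ⟨n, Finset.mem_range.mpr ((hm₀ n).mpr hn), rfl⟩)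
  rwa [hbp] at this

end Pool.Agent.H199.Mac
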