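import Mathlib
import Pool.Agent.H199.Mac.Base

set_option autoImplicit false
open Finset Filter

namespace Pool.Agent.H199.Mac
open Pool.Agent.Helper107.MZ

theorem cnt_set (p : ℕ → ℕ) (hp : StrictMono p) (j : ℕ) :
    {n : ℕ | p n ≤ 2 ^ j} = ((range (2 ^ j + 1)).filter (fun n => p n ≤ 2 ^ j) : Finset ℕ) := by
  ext n
  simp only [Set.mem_ofPred_eq, Finset.coe_filter, Finset.mem_range]
  refine ⟨fun h => ⟨?_, h⟩, fun h => h.2⟩
  have := hp.le_apply (x := n)
  omega

theorem cnt_eq (p : ℕ → ℕ) (hp : StrictMono p) (j : ℕ) :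
    {n : ℕ | p n ≤ 2 ^ j}.ncard = ((range (2 ^ j + 1)).filter (fun n => p n ≤ 2 ^ j)).card := by
  rw [cnt_set p hp j, Set.ncard_coe_finset]

theorem RR_eq (p : ℕ → ℕ) (hp : StrictMono p) (hp0 : ∀ n, 0 < p n) (m : ℕ) :
    RR (Set.range p) m = 1 + ({n : ℕ | p n ≤ 2 ^ (m + 2)}.ncard : ℝ) := by
  classical
  unfold RR
  rw [cnt_eq p hp]
  have h1 : (range (2 ^ (m + 2) + 1)).filter (fun q => q = 0 ∨ q ∈ Set.range p) =
      insert 0 (((range (2 ^ (m + 2) + 1)).filter (fun n => p n ≤ 2 ^ (m + 2))).image p) := by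
    ext q
    simp only [Finset.mem_filter, Finset.mem_range, Finset.mem_insert, Finset.mem_image,
      Set.mem_range]
    constructor
    · rintro ⟨h1, h2 | ⟨n, rfl⟩⟩
      · exact Or.inl h2
      · right
        refine ⟨n, ⟨?_, by omega⟩, rfl⟩
        have := hp.le_apply (x := n)
        omega
    · rintro (rfl | ⟨n, ⟨_, h2⟩, rfl⟩)
      · exact ⟨by positivity, Or.inl rfl⟩
      · exact ⟨by omega, Or.inr ⟨n, rfl⟩⟩
  have h0 : (0 : ℕ) ∉ (((range (2 ^ (m + 2) + 1)).filter (fun n => p n ≤ 2 ^ (m + 2))).image p) := by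
    rw [Finset.mem_image]
    rintro ⟨n, _, h⟩
    exact absurd h (hp0 n).ne'
  have h2 : ((range (2 ^ (m + 2) + 1)).filter (fun q => q = 0 ∨ q ∈ Set.range p)).card =
      ((range (2 ^ (m + 2) + 1)).filter (fun n => p n ≤ 2 ^ (m + 2))).card + 1 := by
    rw [h1, Finset.card_insert_of_notMem h0, Finset.card_image_of_injective _ hp.injective]
  have h3 : (((range (2 ^ (m + 2) + 1)).filter (fun q => q = 0 ∨ q ∈ Set.range p)).card : ℝ) =
      1 + (((range (2 ^ (m + 2) + 1)).filter (fun n => p n ≤ 2 ^ (m + 2))).card : ℝ) := by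
    rw [h2]; push_cast; ring
  convert h3

theorem dens_nonneg (p : ℕ → ℕ) (j : ℕ) : 0 ≤ dens p j := by
  unfold dens; positivity

theorem dens_le_one (p : ℕ → ℕ) (hp : StrictMono p) (hp0 : ∀ n, 0 < p n) (j : ℕ) :
    dens p j ≤ 1 := by
  unfold dens
  rw [div_le_one (by positivity), cnt_eq p hp]
  have h : ((range (2 ^ j + 1)).filter (fun n => p n ≤ 2 ^ j)).card ≤ 2 ^ j := by
    have h1 : ((range (2 ^ j + 1)).filter (fun n => p n ≤ 2 ^ j)) ⊆ range (2 ^ j) := by
      intro n hn
      rw [Finset.mem_filter, Finset.mem_range] at hn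
      rw [Finset.mem_range]
      have h2 : n < p n := by
        have h3 : ∀ n, n < p n := by
          intro n
          induction n with
          | zero => exact hp0 0
          | succ k ih => have := hp (show k < k + 1 by omega); omega
        exact h3 n
      omega
    simpa using Finset.card_le_card h1
  exact_mod_cast h

theorem h_nonneg (p : ℕ → ℕ) (hp : StrictMono p) (hp0 : ∀ n, 0 < p n) (j : ℕ) :
    0 ≤ dens p j * Real.log (2 / dens p j) := by
  rcases (dens_nonneg p j).eq_or_lt with h | h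
  · rw [← h]; simp
  · refine mul_nonneg h.le (Real.log_nonneg ?_)
    rw [le_div_iff₀ h]
    have := dens_le_one p hp hp0 j
    linarith

theorem h_le_two (p : ℕ → ℕ) (j : ℕ) :
    dens p j * Real.log (2 / dens p j) ≤ 2 := by
  rcases (dens_nonneg p j).eq_or_lt with h | h
  · rw [← h]; simp
  · have h1 := Real.log_le_sub_one_of_pos (show 0 < 2 / dens p j by positivity)
    calc dens p j * Real.log (2 / dens p j) ≤ dens p j * (2 / dens p j - 1) :=
          mul_le_mul_of_nonneg_left h1 h.le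
      _ = 2 - dens p j := by field_simp
      _ ≤ 2 := by linarith

theorem HH_le (p : ℕ → ℕ) (hp : StrictMono p) (hp0 : ∀ n, 0 < p n) (m : ℕ) :
    HH (Set.range p) m ≤ 15000 * (dens p (m + 2) * Real.log (2 / dens p (m + 2))) +
      625 * (2 * ((m : ℝ) + 1) / 2 ^ m) := by
  have hpi := Real.pi_lt_d2
  have hpi0 := Real.pi_pos
  have h2m : (0 : ℝ) < 2 ^ m := by positivity
  have h2m1 : (1 : ℝ) ≤ 2 ^ m := one_le_pow₀ (by norm_num)
  unfold HH
  rw [RR_eq p hp hp0]
  rcases Nat.eq_zero_or_pos ({n : ℕ | p n ≤ 2 ^ (m + 2)}.ncard) with h0 | hpos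
  · have hd : dens p (m + 2) = 0 := by unfold dens; rw [h0]; simp
    rw [hd, h0]
    simp only [Nat.cast_zero, add_zero, div_one, zero_mul, mul_zero, zero_add]
    have h1 : Real.log (1 + Real.pi * 2 ^ (m + 1)) ≤ m + 3 := by
      have h2 : 1 + Real.pi * 2 ^ (m + 1) ≤ 2 ^ (m + 3) := by
        rw [pow_succ, pow_add]
        nlinarith
      have h3 : Real.log (2 ^ (m + 3)) ≤ m + 3 := by
        rw [Real.log_pow]
        have h4 : Real.log 2 ≤ 1 := by
          have := Real.log_two_lt_d9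
          linarith
        push_cast
        have : (0 : ℝ) ≤ (m : ℝ) + 3 := by positivity
        nlinarith
      exact (Real.log_le_log (by positivity) h2).trans h3
    have h5 : 1242 * (1 / (2 : ℝ) ^ m) + 2 * (1 / 2 ^ m) * Real.log (1 + Real.pi * 2 ^ (m + 1)) +
        2 * ((m : ℝ) + 1) / 2 ^ m ≤ (1242 + 2 * (m + 3) + 2 * (m + 1)) / 2 ^ m := by
      have : 2 * (1 / (2 : ℝ) ^ m) * Real.log (1 + Real.pi * 2 ^ (m + 1)) ≤
          2 * (1 / (2 : ℝ) ^ m) * (m + 3) := mul_le_mul_of_nonneg_left h1 (by positivity)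
      calc _ ≤ 1242 * (1 / (2 : ℝ) ^ m) + 2 * (1 / (2 : ℝ) ^ m) * (m + 3) +
            2 * ((m : ℝ) + 1) / 2 ^ m := by linarith
        _ = _ := by ring
    refine h5.trans ?_
    rw [← mul_div_assoc]
    apply div_le_div_of_nonneg_right _ h2m.le
    have : (0 : ℝ) ≤ m := Nat.cast_nonneg m
    linarith
  · set k : ℝ := ({n : ℕ | p n ≤ 2 ^ (m + 2)}.ncard : ℝ) with hk
    have hk1 : 1 ≤ k := by rw [hk]; exact_mod_cast hpos
    set e := dens p (m + 2) with he
    have hek : k = 4 * 2 ^ m * e := by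
      rw [he]; unfold dens; rw [← hk, pow_add]; field_simp; ring
    have he0 : 0 < e := by
      by_contra h
      push Not at h
      have : 4 * 2 ^ m * e ≤ 0 := mul_nonpos_of_nonneg_of_nonpos (by positivity) h
      linarith
    have he1 : e ≤ 1 := dens_le_one p hp hp0 _
    have hd1 : (1 + k) / 2 ^ m ≤ 8 * e := by
      rw [div_le_iff₀ h2m]
      linarith
    have hlog2 : 0.69 ≤ Real.log (2 / e) := by
      have h1 : Real.log 2 ≤ Real.log (2 / e) := by
        apply Real.log_le_log (by norm_num)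
        rw [le_div_iff₀ he0]; linarith
      have := Real.log_two_gt_d9
      linarith
    have hlog : Real.log (1 + Real.pi * 2 ^ (m + 1) / (1 + k)) ≤ 2 * Real.log (2 / e) := by
      have h1 : (2 : ℝ) * Real.log (2 / e) = Real.log ((2 / e) ^ 2) := by
        rw [Real.log_pow]; norm_num
      rw [h1]
      apply Real.log_le_log (by positivity)
      have h2 : Real.pi * 2 ^ (m + 1) / (1 + k) ≤ 1.6 / e := by
        rw [div_le_div_iff₀ (by positivity) he0]
        have : Real.pi * 2 ^ (m + 1) * e ≤ 1.6 * k := by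
          rw [hek, pow_succ]
          nlinarith [mul_pos h2m he0]
        linarith
      have h3 : 1 ≤ 1 / e := by rw [le_div_iff₀ he0]; linarith
      have h4 : (2 / e) ^ 2 = 4 * (1 / e) * (1 / e) := by ring
      have h5 : (1.6 : ℝ) / e = 1.6 * (1 / e) := by ring
      rw [h4]
      rw [h5] at h2
      nlinarith
    have hx : 0 ≤ Real.log (1 + Real.pi * 2 ^ (m + 1) / (1 + k)) := Real.log_nonneg (by
      have : 0 ≤ Real.pi * 2 ^ (m + 1) / (1 + k) := by positivity
      linarith)
    have h6 : 2 * ((1 + k) / 2 ^ m) * Real.log (1 + Real.pi * 2 ^ (m + 1) / (1 + k)) ≤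
        2 * (8 * e) * (2 * Real.log (2 / e)) := by
      refine mul_le_mul ?_ hlog hx (by positivity)
      linarith
    have h7 : e ≤ 1.5 * (e * Real.log (2 / e)) := by nlinarith
    have h8 : (0 : ℝ) ≤ 2 * ((m : ℝ) + 1) / 2 ^ m := by positivity
    nlinarith

theorem first_hit (γ : ℝ → ℂ) (T : ℝ) (hγ : ContinuousOn γ (Set.Ici T)) (ρ : ℝ)
    (h0 : ‖γ T‖ < ρ) (hinf : Tendsto (fun t => ‖γ t‖) atTop atTop) :
    ∃ τ, T ≤ τ ∧ ‖γ τ‖ = ρ ∧ ∀ t ∈ Set.Icc T τ, ‖γ t‖ ≤ ρ := by
  obtain ⟨t₁, ht₁, hT₁⟩ := ((hinf.eventually_ge_atTop ρ).and (eventually_ge_atTop T)).exists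
  have hcont : ContinuousOn (fun t => ‖γ t‖) (Set.Icc T t₁) :=
    (hγ.mono Set.Icc_subset_Ici_self).norm
  set S := {t ∈ Set.Icc T t₁ | ‖γ t‖ = ρ} with hS
  have hSne : S.Nonempty := by
    obtain ⟨t, ht, h⟩ := intermediate_value_Icc hT₁ hcont ⟨h0.le, ht₁⟩
    exact ⟨t, ht, h⟩
  have hScl : IsCompact S := by
    have h1 : IsClosed S := by
      have := hcont.preimage_isClosed_of_isClosed isClosed_Icc (isClosed_singleton (x := ρ))
      have h2 : S = Set.Icc T t₁ ∩ (fun t => ‖γ t‖) ⁻¹' {ρ} := by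
        ext t; simp [hS]
      rw [h2]; exact this
    exact isCompact_Icc.of_isClosed_subset h1 (fun t ht => ht.1)
  have hmem := hScl.sInf_mem hSne
  refine ⟨sInf S, hmem.1.1, hmem.2, fun t ht => ?_⟩
  by_contra hcon
  push Not at hcon
  have hsub : Set.Icc T t ⊆ Set.Icc T t₁ := Set.Icc_subset_Icc le_rfl (ht.2.trans hmem.1.2)
  obtain ⟨s, hs, h⟩ := intermediate_value_Icc ht.1 (hcont.mono hsub) ⟨h0.le, hcon.le⟩
  have h1 : sInf S ≤ s := csInf_le hScl.bddBelow ⟨hsub hs, h⟩
  have h2 : s = t := le_antisymm hs.2 (ht.2.trans h1)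
  have h : ‖γ s‖ = ρ := h
  rw [h2] at h
  linarith

/-- General form: the entropy of the exponents up to `log M(r)` is `o(log r)` along a sequence. -/
theorem main (p : ℕ → ℕ) (hp : StrictMono p) (hp0 : ∀ n, 0 < p n)
    (a : ℕ → ℂ) (ha : ∀ z : ℂ, Summable (fun n => a n * z ^ (p n)))
    (hne : ∃ n, a n ≠ 0)
    (hcond : ∀ ε > 0, ∃ᶠ r : ℝ in atTop, ent p (Real.log (maxMod p a r)) ≤ ε * Real.log r)
    (γ : ℝ → ℂ) (hγ : ContinuousOn γ (Set.Ici 0))
    (hinf : Tendsto (fun t => ‖γ t‖) atTop atTop) :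
    ¬ ∃ M : ℝ, ∀ t : ℝ, 0 ≤ t → ‖∑' n, a n * (γ t) ^ (p n)‖ ≤ M := by
  rintro ⟨Mb, hMb⟩
  have hMt := maxMod_tendsto p hp hp0 a ha hne
  obtain ⟨T, hT0, -, hT1, L, hLc, hL, hLre⟩ := mac_setup γ hγ hinf 0
  obtain ⟨c, hc, htel⟩ := mz_telA (Set.range p)
  obtain ⟨n, hn⟩ := hne
  obtain ⟨n₀, hn₀⟩ := pow_unbounded_of_one_lt (p n : ℝ) (show (1 : ℝ) < 2 by norm_num)
  apply hn
  refine mac_core' p hp hp0 a γ L T hL Mb
    (fun t ht => hMb t (hT0.trans ht)) c hc n₀ ?_ n (lt_of_lt_of_le hn₀ (hc n₀).1)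
  intro X₀
  set G := ∑' m : ℕ, (2 * ((m : ℝ) + 1) / 2 ^ m) with hG
  have hlogM : Tendsto (fun r => Real.log (maxMod p a r)) atTop atTop :=
    Real.tendsto_log_atTop.comp hMt
  have hlogr : Tendsto (fun r : ℝ => Real.log r) atTop atTop := Real.tendsto_log_atTop
  obtain ⟨r, hr1, hr2, hr3, hr4, hr5, hr6⟩ := ((hcond (1 / 60000) (by norm_num)).and_eventually
    ((eventually_gt_atTop (2 * ‖γ T‖)).and ((hlogM.eventually_ge_atTop (2 ^ n₀)).and
    ((hlogM.eventually_ge_atTop 2).and
    ((hlogr.eventually_ge_atTop (4 * ((L T).re + |X₀| + 90000 + 625 * G + 10))).and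
    (eventually_gt_atTop 1)))))).exists
  obtain ⟨τ, hTτ, hτ1, hτ2⟩ := first_hit γ T (hγ.mono (Set.Ici_subset_Ici.mpr hT0)) (r / 2)
    (by linarith) hinf
  set M := maxMod p a r with hM
  have hMpos : 0 < M := by
    by_contra h
    push Not at h
    have h1 : Real.log M ≤ 0 := by
      have := hMt
      rcases h.eq_or_lt with h' | h'
      · rw [h']; simp
      · have hnn : 0 ≤ M := by
          exact (norm_nonneg _).trans (norm_le_maxMod p a ha r 0 (by simp; linarith))
        linarith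
    linarith
  have hlog2 := Real.log_two_gt_d9
  have hlogb : Real.logb 2 M = Real.log M / Real.log 2 := rfl
  have hlb0 : 1 + Real.logb 2 M ≤ 2 * Real.log M := by
    rw [hlogb]
    have h1 : Real.log M / Real.log 2 ≤ 1.45 * Real.log M := by
      rw [div_le_iff₀ (by linarith)]
      nlinarith
    linarith
  -- choice of the level
  have hex : ∃ k : ℕ, 1 + Real.logb 2 M ≤ 2 ^ k := by
    obtain ⟨k, hk⟩ := pow_unbounded_of_one_lt (1 + Real.logb 2 M) (show (1 : ℝ) < 2 by norm_num)
    exact ⟨k, hk.le⟩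
  set N := max n₀ (Nat.find hex) with hN
  have hN1 : 1 + Real.logb 2 M ≤ 2 ^ N :=
    (Nat.find_spec hex).trans (pow_le_pow_right₀ (by norm_num) (le_max_right _ _))
  have hN2 : ∀ j, j + 2 ≤ N → (2 : ℝ) ^ j ≤ Real.log M := by
    intro j hj
    rcases le_max_iff.mp hj with h | h
    · calc (2 : ℝ) ^ j ≤ 2 ^ n₀ := pow_le_pow_right₀ (by norm_num) (by omega)
        _ ≤ _ := hr3
    · have h1 := Nat.find_min hex (show j + 1 < Nat.find hex by omega)
      push Not at h1
      rw [pow_succ] at h1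
      linarith
  -- the sum of the losses
  have hgeo : ∀ N : ℕ, ∑ m ∈ Ico n₀ N, (2 * ((m : ℝ) + 1) / 2 ^ m) ≤ G := fun N =>
    mz_geoS.sum_le_tsum _ (fun i _ => by positivity)
  have hGnn : 0 ≤ G := tsum_nonneg fun i => by positivity
  have hsum : ∑ m ∈ Ico n₀ N, HH (Set.range p) m ≤
      15000 * (ent p (Real.log M) + 6) + 625 * G := by
    calc ∑ m ∈ Ico n₀ N, HH (Set.range p) m
        ≤ ∑ m ∈ Ico n₀ N, (15000 * (dens p (m + 2) * Real.log (2 / dens p (m + 2))) +
          625 * (2 * ((m : ℝ) + 1) / 2 ^ m)) := Finset.sum_le_sum fun m _ => HH_le p hp hp0 m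
      _ = 15000 * ∑ m ∈ Ico n₀ N, (dens p (m + 2) * Real.log (2 / dens p (m + 2))) +
          625 * ∑ m ∈ Ico n₀ N, (2 * ((m : ℝ) + 1) / 2 ^ m) := by
            rw [Finset.sum_add_distrib, Finset.mul_sum, Finset.mul_sum]
      _ ≤ 15000 * (ent p (Real.log M) + 6) + 625 * G := by
          have h1 : ∑ m ∈ Ico n₀ N, (dens p (m + 2) * Real.log (2 / dens p (m + 2))) ≤
              ent p (Real.log M) + 6 := by
            have h2 : ∑ m ∈ Ico n₀ N, (dens p (m + 2) * Real.log (2 / dens p (m + 2))) =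
                ∑ j ∈ (Ico n₀ N).image (fun m => m + 2),
                  (dens p j * Real.log (2 / dens p j)) := by
              rw [Finset.sum_image]
              intro x _ y _ h
              simpa using h
            rw [h2]
            set A := (range (⌊Real.log M⌋₊ + 1)).filter (fun j : ℕ => (2 : ℝ) ^ j ≤ Real.log M)
              with hA
            have h3 : (Ico n₀ N).image (fun m => m + 2) ⊆ A ∪ Ico (N - 1) (N + 2) := by
              intro j hj
              rw [Finset.mem_image] at hj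
              obtain ⟨m, hm, rfl⟩ := hj
              rw [Finset.mem_Ico] at hm
              rw [Finset.mem_union, Finset.mem_Ico]
              by_cases h : m + 2 + 2 ≤ N
              · left
                have h4 := hN2 (m + 2) h
                rw [hA, Finset.mem_filter, Finset.mem_range]
                refine ⟨?_, h4⟩
                have h5 : ((m + 2 : ℕ) : ℝ) ≤ Real.log M := by
                  refine le_trans ?_ h4
                  exact_mod_cast (Nat.lt_two_pow_self (n := m + 2)).le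
                have := Nat.le_floor h5
                omega
              · right; omega
            calc ∑ j ∈ (Ico n₀ N).image (fun m => m + 2), (dens p j * Real.log (2 / dens p j))
                ≤ ∑ j ∈ A ∪ Ico (N - 1) (N + 2), (dens p j * Real.log (2 / dens p j)) :=
                  Finset.sum_le_sum_of_subset_of_nonneg h3 fun j _ _ => h_nonneg p hp hp0 j
              _ ≤ ∑ j ∈ A, (dens p j * Real.log (2 / dens p j)) +
                  ∑ j ∈ Ico (N - 1) (N + 2), (dens p j * Real.log (2 / dens p j)) := by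
                  have h6 := Finset.sum_union_inter (s₁ := A) (s₂ := Ico (N - 1) (N + 2))
                    (f := fun j => dens p j * Real.log (2 / dens p j))
                  have h7 : 0 ≤ ∑ j ∈ A ∩ Ico (N - 1) (N + 2), dens p j * Real.log (2 / dens p j) :=
                    Finset.sum_nonneg fun j _ => h_nonneg p hp hp0 j
                  linarith
              _ ≤ ent p (Real.log M) + 6 := by
                  have h8 : ∑ j ∈ Ico (N - 1) (N + 2), (dens p j * Real.log (2 / dens p j)) ≤ 6 := by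
                    have h9 : ∑ j ∈ Ico (N - 1) (N + 2), (dens p j * Real.log (2 / dens p j)) ≤
                        ∑ j ∈ Ico (N - 1) (N + 2), (2 : ℝ) :=
                      Finset.sum_le_sum fun j _ => h_le_two p j
                    rw [Finset.sum_const, Nat.card_Ico, nsmul_eq_mul] at h9
                    refine h9.trans ?_
                    have : N + 2 - (N - 1) ≤ 3 := by omega
                    have : ((N + 2 - (N - 1) : ℕ) : ℝ) ≤ 3 := by exact_mod_cast this
                    linarith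
                  unfold ent
                  linarith
          have h2 := hgeo N
          linarith
  have hreτ : (L τ).re = Real.log r - Real.log 2 := by
    rw [hLre τ hTτ, hτ1, Real.log_div (by linarith) (by norm_num)]
  have hlog2' := Real.log_two_lt_d9
  have hreT : 0 ≤ (L T).re := by
    rw [hLre T le_rfl]; exact Real.log_nonneg (hT1 T le_rfl)
  have hX := abs_nonneg X₀
  have hX' := le_abs_self X₀
  have hsum' : ∑ m ∈ Ico n₀ N, HH (Set.range p) m ≤ Real.log r / 4 + 90000 + 625 * G := by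
    linarith
  refine ⟨τ, hTτ, N, le_max_left _ _, ?_, ?_⟩
  · intro t ht m hm
    exact trunc_quant p hp a ha r (by linarith) (c N) hMpos (hN1.trans (hc N).1) (γ t)
      (hτ2 t ht) m hm
  · intro P b A hP hPc hA hbd
    obtain ⟨τ', h1, h2, h3, h4⟩ := htel n₀ N (le_max_left _ _) P b A L T τ hP hPc hA hTτ
      hLc.continuousOn (by rw [hreτ]; linarith) hbd
    refine ⟨τ', h1, h2, ?_, h4⟩
    rw [hreτ] at h3
    linarith

end Pool.Agent.H199.Mac
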