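import Mathlib
import Pool.Agent.H199.Mac.Main

set_option autoImplicit false
open Finset Filter

namespace Pool.Agent.H199.Mac
open Pool.Agent.Helper107.MZ

theorem dens_summable (p : ℕ → ℕ) (hp : StrictMono p) (hp0 : ∀ n, 0 < p n)
    (hsum : Summable (fun n => 1 / (p n : ℝ))) : Summable (dens p) := by
  have hS : ∀ q ∈ Set.range p, 0 < q := by
    rintro _ ⟨n, rfl⟩; exact hp0 n
  have hGG := GG_summable (Set.range p) hS (range_summable p hp (fun q => 1 / (q : ℝ)) hsum)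
  refine Summable.of_nonneg_of_le (dens_nonneg p) (fun j => ?_) hGG
  have h1 : dens p j ≤ RR (Set.range p) j / 2 ^ j := by
    unfold dens
    apply div_le_div_of_nonneg_right _ (by positivity)
    rw [RR_eq p hp hp0]
    have h2 : {n : ℕ | p n ≤ 2 ^ j}.ncard ≤ {n : ℕ | p n ≤ 2 ^ (j + 2)}.ncard := by
      apply Set.ncard_le_ncard
      · intro n hn
        have h3 : (2 : ℕ) ^ j ≤ 2 ^ (j + 2) := Nat.pow_le_pow_right (by norm_num) (by omega)
        exact le_trans hn h3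
      · rw [cnt_set p hp]
        exact Finset.finite_toSet _
    have h4 : (({n : ℕ | p n ≤ 2 ^ j}.ncard : ℕ) : ℝ) ≤ ({n : ℕ | p n ≤ 2 ^ (j + 2)}.ncard : ℕ) := by
      exact_mod_cast h2
    linarith
  have h5 : 0 ≤ RR (Set.range p) j / 2 ^ j := by
    have := RR_one_le (Set.range p) j
    positivity
  have h6 : (0 : ℝ) ≤ 2 * (j + 1) / 2 ^ j := by positivity
  unfold GG
  linarith

/-- Auxiliary weights. -/
noncomputable def uu (p : ℕ → ℕ) (j : ℕ) : ℝ := 2 * dens p j + 4 * (1 / ((j + 2 : ℕ) : ℝ) ^ 2)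

theorem uu_nonneg (p : ℕ → ℕ) (j : ℕ) : 0 ≤ uu p j := by
  have := dens_nonneg p j
  unfold uu; positivity

theorem uu_summable (p : ℕ → ℕ) (hp : StrictMono p) (hp0 : ∀ n, 0 < p n)
    (hsum : Summable (fun n => 1 / (p n : ℝ))) : Summable (uu p) := by
  have h1 : Summable (fun j : ℕ => 1 / ((j + 2 : ℕ) : ℝ) ^ 2) :=
    (summable_nat_add_iff 2 (f := fun j : ℕ => 1 / (j : ℝ) ^ 2)).mpr
      (Real.summable_one_div_nat_pow.mpr (by norm_num))
  exact ((dens_summable p hp hp0 hsum).mul_left 2).add (h1.mul_left 4)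

theorem h_le_uu (p : ℕ → ℕ) (j : ℕ) :
    dens p j * Real.log (2 / dens p j) ≤ Real.log ((j : ℝ) + 2) * uu p j := by
  set e := dens p j with he
  have he0 : 0 ≤ e := dens_nonneg p j
  have hj : (0 : ℝ) ≤ j := Nat.cast_nonneg j
  have hcast : ((j + 2 : ℕ) : ℝ) = (j : ℝ) + 2 := by push_cast; ring
  set y : ℝ := 2 / ((j : ℝ) + 2) ^ 2 with hy
  have hy0 : 0 < y := by positivity
  have hl2 : (0.69 : ℝ) ≤ Real.log ((j : ℝ) + 2) := by
    have h1 : Real.log 2 ≤ Real.log ((j : ℝ) + 2) := Real.log_le_log (by norm_num) (by linarith)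
    have := Real.log_two_gt_d9
    linarith
  have hly : Real.log (2 / y) = 2 * Real.log ((j : ℝ) + 2) := by
    have : 2 / y = ((j : ℝ) + 2) ^ 2 := by rw [hy]; field_simp
    rw [this, Real.log_pow]; norm_num
  have hyu : 4 * (1 / ((j + 2 : ℕ) : ℝ) ^ 2) = 2 * y := by
    rw [hcast, hy]; ring
  unfold uu
  rw [← he, hyu]
  rcases le_or_gt y e with h | h
  · have hepos : 0 < e := lt_of_lt_of_le hy0 h
    have h1 : Real.log (2 / e) ≤ Real.log (2 / y) := by
      apply Real.log_le_log (by positivity)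
      gcongr
    rw [hly] at h1
    nlinarith
  · rcases he0.eq_or_lt with h0 | h0
    · rw [← h0]
      simp only [zero_mul, mul_zero, zero_add]
      positivity
    · have h1 : Real.log (2 / e) = Real.log (2 / y) + Real.log (y / e) := by
        rw [← Real.log_mul (by positivity) (by positivity)]
        congr 1
        field_simp
      have h2 := Real.log_le_sub_one_of_pos (show 0 < y / e by positivity)
      have h3 : e * Real.log (y / e) ≤ y - e := by
        calc e * Real.log (y / e) ≤ e * (y / e - 1) := mul_le_mul_of_nonneg_left h2 h0.le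
          _ = y - e := by field_simp
      rw [h1, mul_add, hly]
      have h4 : y - e ≤ (y - e) * (2 * Real.log ((j : ℝ) + 2)) := by nlinarith
      nlinarith

/-- The index set in `ent`. -/
noncomputable def JJ (X : ℝ) : Finset ℕ :=
  (range (⌊X⌋₊ + 1)).filter (fun j : ℕ => (2 : ℝ) ^ j ≤ X)

theorem mem_JJ (X : ℝ) (j : ℕ) : j ∈ JJ X ↔ (2 : ℝ) ^ j ≤ X := by
  unfold JJ
  rw [Finset.mem_filter, Finset.mem_range]
  refine ⟨fun h => h.2, fun h => ⟨?_, h⟩⟩
  have h5 : (j : ℝ) ≤ X := by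
    refine le_trans ?_ h
    exact_mod_cast (Nat.lt_two_pow_self (n := j)).le
  have := Nat.le_floor h5
  omega

theorem JJ_mono {X Y : ℝ} (h : X ≤ Y) : JJ X ⊆ JJ Y := by
  intro j hj
  rw [mem_JJ] at hj ⊢
  exact hj.trans h

theorem log_JJ (X : ℝ) (j : ℕ) (hX : 1 ≤ Real.log (Real.log X)) (h : (2 : ℝ) ^ j ≤ X) :
    Real.log ((j : ℝ) + 2) ≤ 2 * Real.log (Real.log X) := by
  have h2j : (1 : ℝ) ≤ 2 ^ j := one_le_pow₀ (by norm_num)
  set y := Real.log X with hy
  have hy0 : 0 ≤ y := Real.log_nonneg (h2j.trans h)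
  have hypos : 0 < y := by
    rcases hy0.eq_or_lt with h0 | h0
    · rw [← h0] at hX; simp at hX; linarith
    · exact h0
  have hye : Real.exp 1 ≤ y := by
    rwa [Real.le_log_iff_exp_le hypos] at hX
  have he := Real.exp_one_gt_d9
  have hj0 : (0 : ℝ) ≤ j := Nat.cast_nonneg j
  have h1 : (j : ℝ) * Real.log 2 ≤ y := by
    rw [← Real.log_pow]
    exact Real.log_le_log (by positivity) h
  have hl2 := Real.log_two_gt_d9
  have h2 : (j : ℝ) ≤ 1.45 * y := by nlinarith
  have h3 : (j : ℝ) + 2 ≤ y ^ 2 := by nlinarith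
  calc Real.log ((j : ℝ) + 2) ≤ Real.log (y ^ 2) := Real.log_le_log (by positivity) h3
    _ = 2 * Real.log y := by rw [Real.log_pow]; norm_num

/-- Abstract summation argument. -/
theorem abel (h u : ℕ → ℝ) (J : ℕ → Finset ℕ) (Λ : ℕ → ℝ) (K : ℕ) (ε U : ℝ) (hK : 1 ≤ K)
    (hε : 0 < ε) (hJ : ∀ k, K ≤ k → J k ⊆ J (k + 1)) (hΛ1 : ∀ k, K ≤ k → 1 ≤ Λ k)
    (hΛ : ∀ k, K ≤ k → Λ k ≤ Λ (k + 1))
    (hu : ∀ k, K ≤ k → ∀ j ∈ J k, h j ≤ 2 * Λ k * u j)
    (hU : ∀ k, K ≤ k → ∑ j ∈ J k, u j ≤ U)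
    (hF : ∀ k, K ≤ k → ε * k ≤ ∑ j ∈ J k, h j) (L : ℕ) (hL : K ≤ L) :
    ∑ k ∈ Ico K L, 1 / Λ k ≤ (4 / ε) * U := by
  have hD : ∀ k, K ≤ k → 0 ≤ 1 / Λ k - 1 / Λ (k + 1) := by
    intro k hk
    have h1 := hΛ1 k hk
    have := one_div_le_one_div_of_le (by linarith) (hΛ k hk)
    linarith
  have c1 : ∑ k ∈ Ico K L, 1 / Λ k + K / Λ K = L / Λ L +
      ∑ k ∈ Ico K L, ((k : ℝ) + 1) * (1 / Λ k - 1 / Λ (k + 1)) := by
    induction L, hL using Nat.le_induction with
    | base => simp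
    | succ n hn ih =>
      rw [sum_Ico_succ_top hn, sum_Ico_succ_top hn]
      push_cast
      have e1 : ((n : ℝ) + 1) / Λ (n + 1) = ((n : ℝ) + 1) * (1 / Λ (n + 1)) := by ring
      have e2 : (n : ℝ) / Λ n = n * (1 / Λ n) := by ring
      rw [e1]
      rw [e2] at ih
      linarith
  have c2 : ∑ k ∈ Ico K L, (∑ j ∈ J k, h j) * (1 / Λ k - 1 / Λ (k + 1)) +
      (∑ j ∈ J L, h j) * (1 / Λ L) ≤ 2 * ∑ j ∈ J L, u j := by
    clear c1
    induction L, hL using Nat.le_induction with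
    | base =>
      simp only [Ico_self, sum_empty, zero_add]
      rw [Finset.sum_mul, Finset.mul_sum]
      refine Finset.sum_le_sum fun j hj => ?_
      have h1 := hu K le_rfl j hj
      have h2 := hΛ1 K le_rfl
      rw [mul_one_div, div_le_iff₀ (by linarith)]
      linarith
    | succ n hn ih =>
      rw [sum_Ico_succ_top hn]
      have h1 := Finset.sum_sdiff (f := h) (hJ n hn)
      have h2 := Finset.sum_sdiff (f := u) (hJ n hn)
      have h3 : (∑ j ∈ J (n + 1) \ J n, h j) * (1 / Λ (n + 1)) ≤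
          2 * ∑ j ∈ J (n + 1) \ J n, u j := by
        rw [Finset.sum_mul, Finset.mul_sum]
        refine Finset.sum_le_sum fun j hj => ?_
        have h4 := hu (n + 1) (by omega) j (Finset.mem_sdiff.mp hj).1
        have h5 := hΛ1 (n + 1) (by omega)
        rw [mul_one_div, div_le_iff₀ (by linarith)]
        linarith
      rw [← h1, ← h2]
      have e : ∑ k ∈ Ico K n, (∑ j ∈ J k, h j) * (1 / Λ k - 1 / Λ (k + 1)) +
          (∑ j ∈ J n, h j) * (1 / Λ n - 1 / Λ (n + 1)) +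
          (∑ j ∈ J (n + 1) \ J n, h j + ∑ j ∈ J n, h j) * (1 / Λ (n + 1)) =
          (∑ k ∈ Ico K n, (∑ j ∈ J k, h j) * (1 / Λ k - 1 / Λ (k + 1)) +
            (∑ j ∈ J n, h j) * (1 / Λ n)) +
          (∑ j ∈ J (n + 1) \ J n, h j) * (1 / Λ (n + 1)) := by ring
      rw [e]
      linarith
  have hKL : 0 ≤ (K : ℝ) / Λ K := by
    have := hΛ1 K le_rfl
    positivity
  have c3 : (L : ℝ) / Λ L ≤ (2 / ε) * ((∑ j ∈ J L, h j) * (1 / Λ L)) := by
    have h1 := hF L hL
    have h2 := hΛ1 L hL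
    have h3 : (L : ℝ) ≤ (2 / ε) * ∑ j ∈ J L, h j := by
      rw [div_mul_eq_mul_div, le_div_iff₀ hε]
      have : 0 ≤ ε * (L : ℝ) := by positivity
      linarith
    calc (L : ℝ) / Λ L ≤ ((2 / ε) * ∑ j ∈ J L, h j) / Λ L :=
          div_le_div_of_nonneg_right h3 (by linarith)
      _ = _ := by ring
  have c4 : ∑ k ∈ Ico K L, ((k : ℝ) + 1) * (1 / Λ k - 1 / Λ (k + 1)) ≤
      (2 / ε) * ∑ k ∈ Ico K L, (∑ j ∈ J k, h j) * (1 / Λ k - 1 / Λ (k + 1)) := by
    rw [Finset.mul_sum]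
    refine Finset.sum_le_sum fun k hk => ?_
    rw [Finset.mem_Ico] at hk
    rw [← mul_assoc]
    refine mul_le_mul_of_nonneg_right ?_ (hD k hk.1)
    have h1 := hF k hk.1
    have h2 : (1 : ℝ) ≤ k := by exact_mod_cast hK.trans hk.1
    rw [div_mul_eq_mul_div, le_div_iff₀ hε]
    nlinarith
  have c5 := hU L hL
  have c6 : (2 / ε) * (∑ k ∈ Ico K L, (∑ j ∈ J k, h j) * (1 / Λ k - 1 / Λ (k + 1)) +
      (∑ j ∈ J L, h j) * (1 / Λ L)) ≤ (2 / ε) * (2 * U) := by
    refine mul_le_mul_of_nonneg_left ?_ (by positivity)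
    linarith
  calc ∑ k ∈ Ico K L, 1 / Λ k ≤ L / Λ L +
        ∑ k ∈ Ico K L, ((k : ℝ) + 1) * (1 / Λ k - 1 / Λ (k + 1)) := by linarith
    _ ≤ (2 / ε) * ((∑ j ∈ J L, h j) * (1 / Λ L)) +
        (2 / ε) * ∑ k ∈ Ico K L, (∑ j ∈ J k, h j) * (1 / Λ k - 1 / Λ (k + 1)) := by linarith
    _ ≤ (2 / ε) * (2 * U) := by linarith
    _ = (4 / ε) * U := by ring

theorem cond_of_growth (p : ℕ → ℕ) (hp : StrictMono p) (hp0 : ∀ n, 0 < p n)
    (hsum : Summable (fun n => 1 / (p n : ℝ)))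
    (a : ℕ → ℂ) (ha : ∀ z : ℂ, Summable (fun n => a n * z ^ (p n)))
    (hne : ∃ n, a n ≠ 0)
    (hgr : ¬ Summable (fun k : ℕ => 1 / Real.log (Real.log (Real.log (maxMod p a (2 ^ k)))))) :
    ∀ ε > 0, ∃ᶠ r : ℝ in atTop, ent p (Real.log (maxMod p a r)) ≤ ε * Real.log r := by
  intro ε hε
  by_contra hcon
  rw [not_frequently] at hcon
  apply hgr
  have hMt := maxMod_tendsto p hp hp0 a ha hne
  have hl := Real.tendsto_log_atTop
  have hX : Tendsto (fun r => Real.log (maxMod p a r)) atTop atTop := hl.comp hMt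
  have hΛt : Tendsto (fun r => Real.log (Real.log (Real.log (maxMod p a r)))) atTop atTop :=
    hl.comp (hl.comp hX)
  have h2k : Tendsto (fun k : ℕ => (2 : ℝ) ^ k) atTop atTop :=
    tendsto_pow_atTop_atTop_of_one_lt (by norm_num)
  have hev := h2k.eventually (hcon.and ((hΛt.eventually_ge_atTop 1).and
    ((hX.eventually_ge_atTop 3).and ((hMt.eventually_ge_atTop 1)))))
  obtain ⟨K₀, hK₀⟩ := eventually_atTop.mp hev
  set K := max K₀ 1 with hKdef
  have hK : ∀ k, K ≤ k → K₀ ≤ k := fun k hk => (le_max_left _ _).trans hk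
  have hl2 : 0 < Real.log 2 := Real.log_pos (by norm_num)
  have hMm : ∀ k : ℕ, maxMod p a (2 ^ k) ≤ maxMod p a (2 ^ (k + 1)) := fun k =>
    maxMod_mono p a ha _ _ (by positivity) (pow_le_pow_right₀ (by norm_num) (by omega))
  have hXm : ∀ k : ℕ, K ≤ k →
      Real.log (maxMod p a (2 ^ k)) ≤ Real.log (maxMod p a (2 ^ (k + 1))) := by
    intro k hk
    have := (hK₀ k (hK k hk)).2.2.2
    exact Real.log_le_log (by linarith) (hMm k)
  have hUs := uu_summable p hp hp0 hsum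
  have key := abel (fun j => dens p j * Real.log (2 / dens p j)) (uu p)
    (fun k => JJ (Real.log (maxMod p a (2 ^ k))))
    (fun k => Real.log (Real.log (Real.log (maxMod p a (2 ^ k))))) K (ε * Real.log 2)
    (∑' j, uu p j) (le_max_right _ _) (by positivity)
    (fun k hk => JJ_mono (hXm k hk))
    (fun k hk => (hK₀ k (hK k hk)).2.1)
    (by
      intro k hk
      obtain ⟨-, h1, h2, h3⟩ := hK₀ k (hK k hk)
      have h4 := hXm k hk
      have h5 : 1 ≤ Real.log (Real.log (maxMod p a (2 ^ k))) := by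
        rw [Real.le_log_iff_exp_le (by linarith)]
        have := Real.exp_one_lt_d9
        linarith
      have h6 : Real.log (Real.log (maxMod p a (2 ^ k))) ≤
          Real.log (Real.log (maxMod p a (2 ^ (k + 1)))) := Real.log_le_log (by linarith) h4
      exact Real.log_le_log (by linarith) h6)
    (by
      intro k hk j hj
      have hj : (2 : ℝ) ^ j ≤ Real.log (maxMod p a (2 ^ k)) := (mem_JJ _ j).mp hj
      have h1 := (hK₀ k (hK k hk)).2.1
      have h2 := log_JJ _ j h1 hj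
      exact (h_le_uu p j).trans (mul_le_mul_of_nonneg_right h2 (uu_nonneg p j)))
    (by
      intro k hk
      exact hUs.sum_le_tsum _ (fun j _ => uu_nonneg p j))
    (by
      intro k hk
      have h1 := (hK₀ k (hK k hk)).1
      push Not at h1
      rw [Real.log_pow] at h1
      have h2 : ent p (Real.log (maxMod p a (2 ^ k))) =
          ∑ j ∈ JJ (Real.log (maxMod p a (2 ^ k))), dens p j * Real.log (2 / dens p j) := rfl
      rw [← h2]
      linarith)
  rw [← summable_nat_add_iff K]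
  refine summable_of_sum_range_le (c := 4 / (ε * Real.log 2) * ∑' j, uu p j) (fun n => ?_)
    (fun n => ?_)
  · have h1 := (hK₀ (n + K) (hK _ (by omega))).2.1
    positivity
  · have h1 := key (n + K) (by omega)
    refine le_trans (le_of_eq ?_) h1
    rw [Finset.sum_Ico_eq_sum_range]
    simp only [Nat.add_sub_cancel]
    refine Finset.sum_congr rfl fun i _ => ?_
    rw [add_comm K i]

end Pool.Agent.H199.Mac
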