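import Mathlib
import Pool.Agent.H199.Mac.Int

set_option autoImplicit false
open Finset Filter

namespace Pool.Agent.H199.Mac
open Pool.Agent.Helper107.MZ

theorem ent_eq (p : ℕ → ℕ) (X : ℝ) :
    ent p X = ∑ j ∈ JJ X, dens p j * Real.log (2 / dens p j) := rfl

theorem cond_of_summable (p : ℕ → ℕ) (hp : StrictMono p) (hp0 : ∀ n, 0 < p n)
    (hs : Summable (fun j => dens p j * Real.log (2 / dens p j))) (a : ℕ → ℂ) :
    ∀ ε > 0, ∃ᶠ r : ℝ in atTop, ent p (Real.log (maxMod p a r)) ≤ ε * Real.log r := by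
  intro ε hε
  apply Eventually.frequently
  have h1 : Tendsto (fun r : ℝ => ε * Real.log r) atTop atTop :=
    Real.tendsto_log_atTop.const_mul_atTop hε
  filter_upwards [h1.eventually_ge_atTop (∑' j, dens p j * Real.log (2 / dens p j))] with r hr
  refine le_trans ?_ hr
  rw [ent_eq]
  exact hs.sum_le_tsum _ (fun j _ => h_nonneg p hp hp0 j)

theorem cond_of_pow (p : ℕ → ℕ) (hp : StrictMono p) (hp0 : ∀ n, 0 < p n)
    (hsum : Summable (fun n => 1 / (p n : ℝ)))
    (a : ℕ → ℂ) (ha : ∀ z : ℂ, Summable (fun n => a n * z ^ (p n)))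
    (hne : ∃ n, a n ≠ 0) (κ : ℝ)
    (hgr : ∃ᶠ r : ℝ in atTop, Real.log (Real.log (maxMod p a r)) ≤ r ^ κ) :
    ∀ ε > 0, ∃ᶠ r : ℝ in atTop, ent p (Real.log (maxMod p a r)) ≤ ε * Real.log r := by
  intro ε hε
  have hMt := maxMod_tendsto p hp hp0 a ha hne
  have hl := Real.tendsto_log_atTop
  have hX : Tendsto (fun r => Real.log (maxMod p a r)) atTop atTop := hl.comp hMt
  have hY : Tendsto (fun r => Real.log (Real.log (maxMod p a r))) atTop atTop := hl.comp hX
  have hΛt : Tendsto (fun r => Real.log (Real.log (Real.log (maxMod p a r)))) atTop atTop :=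
    hl.comp hY
  have hUs := uu_summable p hp hp0 hsum
  obtain ⟨j₀, hj₀⟩ := tail_small (uu p) (uu_nonneg p) hUs (ε / (4 * (|κ| + 1)))
    (by positivity)
  have hj₁ : ∀ A : Finset ℕ, (∀ j ∈ A, j₀ ≤ j) → ∑ j ∈ A, uu p j ≤ ε / (4 * (|κ| + 1)) := by
    intro A hA
    obtain ⟨N, hN⟩ := A.exists_nat_subset_range
    refine le_trans ?_ (hj₀ j₀ le_rfl N)
    refine Finset.sum_le_sum_of_subset_of_nonneg ?_ fun j _ _ => uu_nonneg p j
    intro j hj
    rw [Finset.mem_Ico]
    exact ⟨hA j hj, Finset.mem_range.mp (hN hj)⟩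
  have h1 : Tendsto (fun r : ℝ => ε / 2 * Real.log r) atTop atTop :=
    hl.const_mul_atTop (by positivity)
  refine (hgr.and_eventually ((hΛt.eventually_ge_atTop 1).and
    ((h1.eventually_ge_atTop (2 * (j₀ : ℝ))).and ((eventually_gt_atTop 1).and
      (hY.eventually_ge_atTop 1))))).mono ?_
  rintro r ⟨h2, h3, h4, h5, h5'⟩
  set X := Real.log (maxMod p a r) with hXdef
  have hlr : 0 < Real.log r := Real.log_pos h5
  have h6 : Real.log (Real.log X) ≤ κ * Real.log r := by
    have h7 := Real.log_le_log (by linarith) h2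
    rwa [Real.log_rpow (by linarith)] at h7
  rw [ent_eq, ← Finset.sum_filter_add_sum_filter_not (JJ X) (fun j => j < j₀)]
  have h7 : ∑ j ∈ (JJ X).filter (fun j => j < j₀), dens p j * Real.log (2 / dens p j) ≤
      2 * (j₀ : ℝ) := by
    calc ∑ j ∈ (JJ X).filter (fun j => j < j₀), dens p j * Real.log (2 / dens p j)
        ≤ ∑ j ∈ range j₀, dens p j * Real.log (2 / dens p j) := by
          refine Finset.sum_le_sum_of_subset_of_nonneg ?_ fun j _ _ => h_nonneg p hp hp0 j
          intro j hj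
          exact Finset.mem_range.mpr (Finset.mem_filter.mp hj).2
      _ ≤ ∑ j ∈ range j₀, (2 : ℝ) := Finset.sum_le_sum fun j _ => h_le_two p j
      _ = 2 * (j₀ : ℝ) := by rw [Finset.sum_const, Finset.card_range, nsmul_eq_mul]; ring
  have h8 : ∑ j ∈ (JJ X).filter (fun j => ¬ j < j₀), dens p j * Real.log (2 / dens p j) ≤
      ε / 2 * Real.log r := by
    calc ∑ j ∈ (JJ X).filter (fun j => ¬ j < j₀), dens p j * Real.log (2 / dens p j)
        ≤ ∑ j ∈ (JJ X).filter (fun j => ¬ j < j₀), 2 * Real.log (Real.log X) * uu p j := by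
          refine Finset.sum_le_sum fun j hj => ?_
          have h9 : (2 : ℝ) ^ j ≤ X := (mem_JJ X j).mp (Finset.mem_filter.mp hj).1
          exact (h_le_uu p j).trans
            (mul_le_mul_of_nonneg_right (log_JJ X j h3 h9) (uu_nonneg p j))
      _ = 2 * Real.log (Real.log X) * ∑ j ∈ (JJ X).filter (fun j => ¬ j < j₀), uu p j := by
          rw [Finset.mul_sum]
      _ ≤ 2 * Real.log (Real.log X) * (ε / (4 * (|κ| + 1))) := by
          refine mul_le_mul_of_nonneg_left ?_ (by linarith)
          refine hj₁ _ fun j hj => ?_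
          have := (Finset.mem_filter.mp hj).2
          omega
      _ ≤ 2 * (|κ| * Real.log r) * (ε / (4 * (|κ| + 1))) := by
          refine mul_le_mul_of_nonneg_right ?_ (by positivity)
          have := mul_le_mul_of_nonneg_right (le_abs_self κ) hlr.le
          linarith
      _ ≤ ε / 2 * Real.log r := by
          have h10 : |κ| / (|κ| + 1) ≤ 1 := by
            rw [div_le_one (by positivity)]; linarith
          have e : 2 * (|κ| * Real.log r) * (ε / (4 * (|κ| + 1))) =
              (|κ| / (|κ| + 1)) * (ε / 2 * Real.log r) := by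
            field_simp
            ring
          rw [e]
          have : 0 ≤ ε / 2 * Real.log r := by positivity
          nlinarith
  linarith

end Pool.Agent.H199.Mac
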